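import Pool.Agent.Helper24.FL.Defs

/-!
# COPIES: the product with a cyclic group
-/

namespace Pool.Agent.Helper9.FL

open Pool.Agent.Helper24.FL

lemma red_prod {G Z : Type} [Group G] [Group Z] (E : Fin 3 → Subgroup G) (k : ℕ) (l : Fin 3)
    (g : G × Z) (h : Red (fun i => (E i).prod (⊥ : Subgroup Z)) k l g) :
    g.2 = 1 ∧ Red E k l g.1 := by
  have key : ∀ e : G × Z, ∀ l, e ∈ (E l).prod (⊥ : Subgroup Z) → e ≠ 1 →
      e.2 = 1 ∧ e.1 ∈ E l ∧ e.1 ≠ 1 := by
    intro e l he h1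
    rw [Subgroup.mem_prod] at he
    have h2 : e.2 = 1 := Subgroup.mem_bot.1 he.2
    refine ⟨h2, he.1, fun h3 => h1 (Prod.ext h3 h2)⟩
  induction h with
  | one l e he h1 =>
    obtain ⟨h2, h3, h4⟩ := key e l he h1
    exact ⟨h2, Red.one l _ h3 h4⟩
  | mul k l g l' e hg hl he h1 ih =>
    obtain ⟨h2, h3, h4⟩ := key e l' he h1
    refine ⟨?_, Red.mul k l _ l' _ ih.2 hl h3 h4⟩
    change g.2 * e.2 = 1
    rw [ih.1, h2, one_mul]

theorem copies : St_COPIES := by
  intro G _ m R r _ D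
  refine ⟨⟨fun i => (D.E i).prod ⊥, ?_, fun i => (D.κ i).prodMap (MonoidHom.id _), ?_, ?_, ?_, ?_, ?_⟩⟩
  · intro i
    rw [Nat.card_congr (Subgroup.prodEquiv (D.E i) (⊥ : Subgroup (Multiplicative (ZMod r)))).toEquiv,
      Nat.card_prod, D.card_E, Subgroup.card_bot, mul_one]
  · intro i e he
    rw [Subgroup.mem_prod] at he
    refine Prod.ext ?_ ?_
    · exact D.kill i _ he.1
    · exact Subgroup.mem_bot.1 he.2
  · intro i j hj e he
    rw [Subgroup.mem_prod] at he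
    refine Prod.ext ?_ rfl
    exact D.fix i j hj _ he.1
  · intro i e he he1 h hh hc
    rw [Subgroup.mem_prod] at he
    have h2 : e.2 = 1 := Subgroup.mem_bot.1 he.2
    have h3 : e.1 ≠ 1 := fun h3 => he1 (Prod.ext h3 h2)
    have hle : (D.E (i + 1)).prod (⊥ : Subgroup (Multiplicative (ZMod r))) ⊔
        (D.E (i + 2)).prod ⊥ ≤ (D.E (i + 1) ⊔ D.E (i + 2)).prod ⊥ :=
      sup_le (Subgroup.prod_mono le_sup_left le_rfl) (Subgroup.prod_mono le_sup_right le_rfl)
    have hh' := hle hh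
    rw [Subgroup.mem_prod] at hh'
    refine Prod.ext ?_ ?_
    · refine D.cent i e.1 he.1 h3 h.1 hh'.1 ?_
      exact congrArg Prod.fst hc
    · exact Subgroup.mem_bot.1 hh'.2
  · intro k l g hk hr h1
    have h2 := (red_prod D.E k l g hr).2
    rw [h1] at h2
    exact D.red_ne k l _ hk h2 rfl
  · intro k k' l l' g hk hk' hr hr'
    exact D.red_unique k k' l l' g.1 hk hk' (red_prod D.E k l g hr).2 (red_prod D.E k' l' g hr').2

end Pool.Agent.Helper9.FL
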