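import Pool.Agent.Helper24.FL.Defs

/-!
# DECAY: an almost delta function
-/

namespace Pool.Agent.Helper9.FL

open Pool.Agent.Helper24.FL

variable {G : Type} [Group G] {m R : ℕ}

/-- the coset `c` is at the level `k` -/
def Lv (D : Data G m R) (l : Fin 3) (c : G ⧸ D.E l) (k : ℕ) : Prop :=
  (k = 0 ∧ c = ((1 : G) : G ⧸ D.E l)) ∨
    (1 ≤ k ∧ ∃ g' l', l' ≠ l ∧ Red D.E k l' g' ∧ ((g' : G) : G ⧸ D.E l) = c)

lemma lv_cases (D : Data G m R) (j : Fin 3) (g : G) (hg : g ≠ 1) (k : ℕ) (hk : k < R)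
    (h : Lv D j (g : G ⧸ D.E j) k) : ∃ k' l, 1 ≤ k' ∧ k' ≤ R ∧ Red D.E k' l g ∧
      ((k' = k ∧ l ≠ j) ∨ (k' = k + 1 ∧ l = j)) := by
  rcases h with ⟨rfl, h⟩ | ⟨hk1, g', l', hl', hr, h⟩
  · have h1 : g ∈ D.E j := by
      have := QuotientGroup.eq.1 h.symm
      simpa using this
    exact ⟨1, j, le_rfl, by omega, Red.one j g h1 hg, Or.inr ⟨rfl, rfl⟩⟩
  · have h1 : g'⁻¹ * g ∈ D.E j := QuotientGroup.eq.1 h
    by_cases he : g'⁻¹ * g = 1
    · have h2 : g' = g := inv_mul_eq_one.1 he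
      subst h2
      exact ⟨k, l', hk1, hk.le, hr, Or.inl ⟨rfl, hl'⟩⟩
    · have h2 := Red.mul k l' g' j (g'⁻¹ * g) hr (Ne.symm hl') h1 he
      rw [mul_inv_cancel_left] at h2
      exact ⟨k + 1, j, by omega, by omega, h2, Or.inr ⟨rfl, rfl⟩⟩

lemma lv_unique (D : Data G m R) (l : Fin 3) (c : G ⧸ D.E l) (k k' : ℕ) (hk : k < R)
    (hk' : k' < R) (h : Lv D l c k) (h' : Lv D l c k') : k = k' := by
  have key : ∀ k k' : ℕ, k < R → k' < R → Lv D l c k → Lv D l c k' → 1 ≤ k → k = k' := by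
    intro k k' hk hk' h h' hk1
    rcases h with ⟨h0, -⟩ | ⟨-, g, l₁, hl₁, hr, hc⟩
    · omega
    subst hc
    have hg : g ≠ 1 := D.red_ne k l₁ g hk.le hr
    obtain ⟨k₂, l₂, h1, h2, h3, h4⟩ := lv_cases D l g hg k' hk' h'
    obtain ⟨h5, h6⟩ := D.red_unique k k₂ l₁ l₂ g hk.le h2 hr h3
    rcases h4 with ⟨h7, -⟩ | ⟨-, h7⟩
    · omega
    · exact absurd (h6.trans h7) hl₁
  by_cases h1 : 1 ≤ k
  · exact key k k' hk hk' h h' h1
  · by_cases h2 : 1 ≤ k'
    · exact (key k' k hk' hk h' h h2).symm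
    · omega

open Classical in
/-- the function -/
noncomputable def eta (D : Data G m R) (l : Fin 3) (c : G ⧸ D.E l) : ℝ :=
  if h : ∃ k, k < R ∧ Lv D l c k then 1 / 3 * (-1 / 2) ^ (Classical.choose h) else 0

lemma eta_eq (D : Data G m R) (l : Fin 3) (c : G ⧸ D.E l) (k : ℕ) (hk : k < R)
    (h : Lv D l c k) : eta D l c = 1 / 3 * (-1 / 2) ^ k := by
  have h1 : ∃ k, k < R ∧ Lv D l c k := ⟨k, hk, h⟩
  unfold eta
  rw [dif_pos h1]
  have h2 := Classical.choose_spec h1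
  rw [lv_unique D l c _ k h2.1 hk h2.2 h]

lemma eta_zero (D : Data G m R) (l : Fin 3) (c : G ⧸ D.E l) (h : ∀ k < R, ¬ Lv D l c k) :
    eta D l c = 0 := by
  unfold eta
  rw [dif_neg]
  rintro ⟨k, h1, h2⟩
  exact h k h1 h2

lemma sum_three (f : Fin 3 → ℝ) (l : Fin 3) (a b : ℝ) (h1 : f l = a) (h2 : ∀ j, j ≠ l → f j = b) :
    ∑ j, f j = a + 2 * b := by
  have h3 : ∀ j, f j = if j = l then a else b := by
    intro j
    split_ifs with h
    · rw [h, h1]
    · exact h2 j h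
  rw [Fin.sum_univ_three, h3 0, h3 1, h3 2]
  fin_cases l
  · simp
    ring
  · simp
    ring
  · simp
    ring

theorem decay : St_DECAY := by
  intro G _ m R hR D
  refine ⟨eta D, ?_, ?_⟩
  · rw [sum_three _ 0 (1 / 3) (1 / 3)]
    · norm_num
    · rw [eta_eq D 0 _ 0 hR (Or.inl ⟨rfl, rfl⟩)]
      norm_num
    · intro j _
      rw [eta_eq D j _ 0 hR (Or.inl ⟨rfl, rfl⟩)]
      norm_num
  · intro g hg
    by_cases hA : ∃ k l, 1 ≤ k ∧ k ≤ R ∧ Red D.E k l g
    · obtain ⟨k, l, hk1, hkR, hr⟩ := hA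
      -- the coset of the last letter
      have hlast : Lv D l (g : G ⧸ D.E l) (k - 1) := by
        cases hr with
        | one l e he h1 =>
          refine Or.inl ⟨rfl, ?_⟩
          exact (QuotientGroup.eq.2 (by simpa using he)).symm
        | mul k l₀ g₀ l e hg₀ hl he h1 =>
          refine Or.inr ⟨?_, g₀, l₀, Ne.symm hl, ?_, ?_⟩
          · have : 1 ≤ k := by
              cases hg₀ <;> omega
            omega
          · exact hg₀
          · exact QuotientGroup.eq.2 (by simpa using he)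
      have e1 : eta D l (g : G ⧸ D.E l) = 1 / 3 * (-1 / 2) ^ (k - 1) :=
        eta_eq D l _ (k - 1) (by omega) hlast
      rcases Nat.lt_or_ge k R with hlt | hge
      · rw [sum_three (fun j => eta D j (g : G ⧸ D.E j)) l _ (1 / 3 * (-1 / 2) ^ k) e1]
        · have e2 : (-1 / 2 : ℝ) ^ k = (-1 / 2) ^ (k - 1) * (-1 / 2) := by
            rw [← pow_succ]
            congr 1
            omega
          rw [e2]
          have e3 : (1 / 3 * (-1 / 2) ^ (k - 1) + 2 * (1 / 3 * ((-1 / 2) ^ (k - 1) * (-1 / 2))) : ℝ) = 0 := by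
            ring
          rw [e3, abs_zero]
          positivity
        · intro j hj
          exact eta_eq D j _ k hlt (Or.inr ⟨hk1, g, l, Ne.symm hj, hr, rfl⟩)
      · have hkR' : k = R := by omega
        rw [sum_three (fun j => eta D j (g : G ⧸ D.E j)) l _ 0 e1]
        · rw [mul_zero, add_zero, hkR', abs_mul, abs_pow]
          norm_num
        · intro j hj
          refine eta_zero D j _ fun k' hk' hlv => ?_
          obtain ⟨k₂, l₂, h1, h2, h3, h4⟩ := lv_cases D j g hg k' hk' hlv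
          obtain ⟨h5, h6⟩ := D.red_unique k k₂ l l₂ g hkR h2 hr h3
          rcases h4 with ⟨h7, -⟩ | ⟨-, h7⟩
          · omega
          · exact hj (h6.trans h7).symm
    · have h0 : ∀ j, eta D j (g : G ⧸ D.E j) = 0 := by
        intro j
        refine eta_zero D j _ fun k' hk' hlv => ?_
        obtain ⟨k₂, l₂, h1, h2, h3, -⟩ := lv_cases D j g hg k' hk' hlv
        exact hA ⟨k₂, l₂, h1, h2, h3⟩
      rw [Finset.sum_congr rfl fun j _ => h0 j, Finset.sum_const_zero, abs_zero]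
      positivity

end Pool.Agent.Helper9.FL
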